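import Pool.Agent.Run7.h371.TB.Iface

/-! Piece `GlobalCont` of `Run7.h371.TB`. -/

set_option autoImplicit false

namespace Run7.h819

open Complex MeasureTheory Filter Topology Set Metric
open Run7.h371.TB

lemma TB_R0_diff (b : ℤ → ℂ) (C : ℝ) (hC : ∀ j, ‖b j‖ ≤ C) (z : ℂ) (hz : ‖z‖ < 1) :
    DifferentiableAt ℂ (R0 b) z := by
  obtain ⟨r, hr0, hr1⟩ := exists_between hz
  have hrn : 0 ≤ r := (norm_nonneg z).trans hr0.le
  have hC0 : 0 ≤ C := (norm_nonneg _).trans (hC 0)
  have h1 : DifferentiableOn ℂ (R0 b) (ball 0 r) := by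
    unfold R0
    apply differentiableOn_tsum_of_summable_norm (u := fun j : ℕ => C * r ^ j)
    · exact (summable_geometric_of_lt_one hrn hr1).mul_left C
    · intro j
      exact ((differentiable_id.pow j).const_mul (b j)).differentiableOn
    · exact isOpen_ball
    · intro j y hy
      rw [mem_ball_zero_iff] at hy
      rw [norm_mul, norm_pow]
      exact mul_le_mul (hC _) (pow_le_pow_left₀ (norm_nonneg _) hy.le _) (by positivity) hC0
  exact h1.differentiableAt (isOpen_ball.mem_nhds (mem_ball_zero_iff.2 hr0))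

lemma TB_R1_diff (b : ℤ → ℂ) (C : ℝ) (hC : ∀ j, ‖b j‖ ≤ C) (z : ℂ) (hz : 1 < ‖z‖) :
    DifferentiableAt ℂ (R1 b) z := by
  obtain ⟨r, hr0, hr1⟩ := exists_between hz
  have hrn : 0 < r := one_pos.trans hr0
  have hC0 : 0 ≤ C := (norm_nonneg _).trans (hC 0)
  have hU : IsOpen {y : ℂ | r < ‖y‖} := isOpen_lt continuous_const continuous_norm
  have hri : r⁻¹ < 1 := inv_lt_one_of_one_lt₀ hr0
  have h1 : DifferentiableOn ℂ (R1 b) {y : ℂ | r < ‖y‖} := by
    unfold R1
    apply differentiableOn_tsum_of_summable_norm (u := fun j : ℕ => C * r⁻¹ ^ (j + 1))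
    · have := (summable_geometric_of_lt_one (inv_nonneg.2 hrn.le) hri).mul_left (C * r⁻¹)
      refine this.congr ?_
      intro j
      rw [pow_succ]
      ring
    · intro j y hy
      have hy0 : y ≠ 0 := by
        rintro rfl
        simp only [mem_setOf_eq, norm_zero] at hy
        linarith
      exact (((differentiableAt_inv hy0).pow (j + 1)).const_mul _).differentiableWithinAt
    · exact hU
    · intro j y hy
      simp only [mem_setOf_eq] at hy
      rw [norm_mul, norm_pow, norm_inv]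
      refine mul_le_mul (hC _) (pow_le_pow_left₀ (by positivity) ?_ _) (by positivity) hC0
      exact inv_anti₀ hrn hy.le
  exact h1.differentiableAt (hU.mem_nhds hr1)

/-- Piece `GlobalCont`. -/
theorem t_GlobalCont : GlobalCont := by
  classical
  intro b C hC E hE hloc
  let Φ : ℂ → ℂ := fun z => if ‖z‖ < 1 then - R0 b z else if 1 < ‖z‖ then R1 b z else
    limUnder (𝓝[ball (0 : ℂ) 1] z) (fun y => - R0 b y)
  have hin : ∀ z : ℂ, ‖z‖ < 1 → Φ z = - R0 b z := fun z hz => if_pos hz
  have hout : ∀ z : ℂ, 1 < ‖z‖ → Φ z = R1 b z := fun z hz => by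
    simp only [Φ]
    rw [if_neg (not_lt.2 hz.le), if_pos hz]
  refine ⟨Φ, ?_, fun z hz _ => hin z hz, fun z hz _ => hout z hz⟩
  intro z hz
  apply DifferentiableAt.differentiableWithinAt
  rcases lt_trichotomy ‖z‖ 1 with h | h | h
  · have h1 : Φ =ᶠ[𝓝 z] fun y => - R0 b y := by
      filter_upwards [(isOpen_lt continuous_norm continuous_const).mem_nhds h] with y hy
      exact hin y hy
    exact h1.differentiableAt_iff.2 (TB_R0_diff b C hC z h).neg
  · obtain ⟨ρ, hρ, Ψ, hΨ, hΨ0, hΨ1⟩ := hloc z h hz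
    have h1 : Φ =ᶠ[𝓝 z] Ψ := by
      filter_upwards [ball_mem_nhds z hρ] with y hy
      rcases lt_trichotomy ‖y‖ 1 with h2 | h2 | h2
      · rw [hin y h2, hΨ0 y hy h2]
      · have h3 : Φ y = limUnder (𝓝[ball (0 : ℂ) 1] y) (fun y => - R0 b y) := by
          simp only [Φ]
          rw [if_neg (by rw [h2]; exact lt_irrefl _), if_neg (by rw [h2]; exact lt_irrefl _)]
        rw [h3]
        have h4 : (𝓝[ball (0 : ℂ) 1] y).NeBot := by
          apply mem_closure_iff_nhdsWithin_neBot.1
          rw [closure_ball (0 : ℂ) one_ne_zero, mem_closedBall_zero_iff, h2]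
        have h5 : Tendsto Ψ (𝓝[ball (0 : ℂ) 1] y) (𝓝 (Ψ y)) :=
          ((hΨ.differentiableAt (isOpen_ball.mem_nhds hy)).continuousAt.tendsto).mono_left
            nhdsWithin_le_nhds
        have h6 : Tendsto (fun y => - R0 b y) (𝓝[ball (0 : ℂ) 1] y) (𝓝 (Ψ y)) := by
          refine h5.congr' ?_
          filter_upwards [self_mem_nhdsWithin, mem_nhdsWithin_of_mem_nhds (isOpen_ball.mem_nhds hy)]
            with x hx hx'
          exact hΨ0 x hx' (mem_ball_zero_iff.1 hx)
        exact h6.limUnder_eq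
      · rw [hout y h2, hΨ1 y hy h2]
    exact h1.differentiableAt_iff.2 (hΨ.differentiableAt (isOpen_ball.mem_nhds (mem_ball_self hρ)))
  · have h1 : Φ =ᶠ[𝓝 z] R1 b := by
      filter_upwards [(isOpen_lt continuous_const continuous_norm).mem_nhds h] with y hy
      exact hout y hy
    exact h1.differentiableAt_iff.2 (TB_R1_diff b C hC z h)

end Run7.h819
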