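import Pool.Agent.Run7.h371.TB.Iface

/-! Piece `Halves` of `Run7.h371.TB`. -/

set_option autoImplicit false

namespace Run7.h819

open Complex MeasureTheory Filter Topology Set Metric
open Run7.h371.TB

lemma TB_Q_eq (a : ℕ → ℂ) (n : ℕ) (z : ℂ) (hz : z ≠ 0) :
    Q a n z = ∑' i : ℕ, (if i < n then a (n - 1 - i) * z⁻¹ ^ (i + 1) else 0) := by
  rw [tsum_eq_sum (s := Finset.range n)]
  · unfold Q S
    rw [← Finset.sum_range_reflect, Finset.mul_sum]
    apply Finset.sum_congr rfl
    intro i hi
    rw [Finset.mem_range] at hi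
    rw [if_pos hi]
    have h : z ^ n = z ^ (n - 1 - i) * z ^ (i + 1) := by
      rw [← pow_add]
      congr 1
      omega
    rw [h, inv_pow]
    have h1 : z ^ (n - 1 - i) ≠ 0 := pow_ne_zero _ hz
    have h2 : z ^ (i + 1) ≠ 0 := pow_ne_zero _ hz
    field_simp
  · intro i hi
    rw [Finset.mem_range] at hi
    rw [if_neg hi]

/-- Piece `Halves`. -/
theorem t_Halves : Halves := by
  intro a C hC φ b hL
  obtain ⟨hφ, hlim⟩ := hL
  refine ⟨fun z hz => ?_, fun z hz => ?_⟩
  · unfold T R0
    apply tendsto_tsum_of_dominated_convergence (bound := fun j : ℕ => C * ‖z‖ ^ j)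
    · exact (summable_geometric_of_lt_one (norm_nonneg z) hz).mul_left C
    · intro j
      apply Tendsto.mul_const
      refine (hlim j).congr ?_
      intro k
      congr 1
    · filter_upwards with k j
      rw [norm_mul, norm_pow]
      exact mul_le_mul_of_nonneg_right (hC _) (by positivity)
  · have hz0 : z ≠ 0 := by
      intro h
      rw [h, norm_zero] at hz
      linarith
    have hC0 : 0 ≤ C := (norm_nonneg _).trans (hC 0)
    have hz1 : ‖z⁻¹‖ < 1 := by
      rw [norm_inv]
      exact inv_lt_one_of_one_lt₀ hz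
    have h1 : (fun k => Q a (φ k) z) = fun k => ∑' i : ℕ,
        (if i < φ k then a (φ k - 1 - i) * z⁻¹ ^ (i + 1) else 0) := by
      funext k
      exact TB_Q_eq a (φ k) z hz0
    rw [h1]
    unfold R1
    apply tendsto_tsum_of_dominated_convergence (bound := fun j : ℕ => C * ‖z⁻¹‖ ^ (j + 1))
    · have := (summable_geometric_of_lt_one (norm_nonneg z⁻¹) hz1).mul_left (C * ‖z⁻¹‖)
      refine this.congr ?_
      intro j
      rw [pow_succ]
      ring
    · intro j
      have h2 := (hlim (-(j : ℤ) - 1)).mul_const (z⁻¹ ^ (j + 1))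
      refine h2.congr' ?_
      filter_upwards [eventually_gt_atTop j] with k hk
      have h3 : j < φ k := hk.trans_le (hφ.id_le k)
      rw [if_pos h3]
      congr 2
      omega
    · filter_upwards with k j
      split_ifs
      · rw [norm_mul, norm_pow]
        exact mul_le_mul_of_nonneg_right (hC _) (by positivity)
      · rw [norm_zero]
        positivity

end Run7.h819
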