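import Pool.Agent.Run7.h371.TB.Iface

/-! Piece `OuterCauchy` of `Run7.h371.TB`. -/

set_option autoImplicit false

namespace Run7.h819

open Complex MeasureTheory Filter Topology Set Metric
open Run7.h371.TB

lemma TB_u_cont : Continuous u := by
  unfold u
  fun_prop

lemma TB_u_norm (t : ℝ) : ‖u t‖ = 1 := by
  unfold u
  exact Complex.norm_exp_ofReal_mul_I t

lemma TB_rho_cont {ρ : ℝ → ℝ} (h : Adm ρ) : Continuous ρ := by
  obtain ⟨L, hL⟩ := h.lip
  exact hL.continuous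

lemma TB_w_cont {ρ : ℝ → ℝ} (h : Adm ρ) : Continuous (w ρ) := by
  have h1 := TB_rho_cont h
  have h2 := TB_u_cont
  unfold w
  fun_prop

lemma TB_w_ne {ρ : ℝ → ℝ} (h : Adm ρ) (t : ℝ) : w ρ t ≠ 0 := by
  unfold w
  apply mul_ne_zero
  · have := h.half t
    exact_mod_cast (by linarith : (0 : ℝ) < ρ t).ne'
  · intro h1
    have := TB_u_norm t
    rw [h1, norm_zero] at this
    exact one_ne_zero this.symm

lemma TB_κ_meas {ρ : ℝ → ℝ} (h : Adm ρ) : Measurable (κ ρ) := by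
  unfold κ
  have h1 : Measurable (fun t => deriv ρ t / ρ t) :=
    (measurable_deriv ρ).div (TB_rho_cont h).measurable
  exact measurable_const.add (Complex.measurable_ofReal.comp h1)

lemma TB_κ_bd {ρ : ℝ → ℝ} (h : Adm ρ) : ∃ K : ℝ, ∀ t, ‖κ ρ t‖ ≤ K := by
  obtain ⟨L, hL⟩ := h.lip
  refine ⟨1 + L / (1 / 2), fun t => ?_⟩
  unfold κ
  refine (norm_add_le _ _).trans ?_
  rw [Complex.norm_I, Complex.norm_real, norm_div]
  have h1 : ‖deriv ρ t‖ ≤ L := norm_deriv_le_of_lipschitz hL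
  have h2 := h.half t
  have h3 : (1 : ℝ) / 2 ≤ ‖ρ t‖ := by
    rw [Real.norm_eq_abs]
    exact h2.trans (le_abs_self _)
  gcongr

lemma TB_int {ρ : ℝ → ℝ} (h : Adm ρ) (f : ℝ → ℂ) (hf : Continuous f) (a b : ℝ) :
    IntervalIntegrable (fun t => f t * κ ρ t) volume a b := by
  obtain ⟨K, hK⟩ := TB_κ_bd h
  have h1 : IntervalIntegrable f volume a b := hf.intervalIntegrable a b
  rw [intervalIntegrable_iff] at h1 ⊢
  exact h1.mul_bdd (TB_κ_meas h).aestronglyMeasurable (Eventually.of_forall fun t => hK t)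

/-- Piece `OuterCauchy`. -/
theorem t_OuterCauchy : OuterCauchy := by
  intro hF a ρ hρ n
  have h1 : ∀ t, Q a n (w ρ t) * κ ρ t =
      ∑ j ∈ Finset.range n, a j * (w ρ t ^ ((j : ℤ) - n) * κ ρ t) := by
    intro t
    unfold Q S
    rw [Finset.mul_sum, Finset.sum_mul]
    apply Finset.sum_congr rfl
    intro j _
    rw [zpow_sub₀ (TB_w_ne hρ t), zpow_natCast, zpow_natCast]
    have := pow_ne_zero n (TB_w_ne hρ t)
    field_simp
  simp_rw [h1]
  rw [intervalIntegral.integral_finset_sum]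
  · apply Finset.sum_eq_zero
    intro j hj
    rw [Finset.mem_range] at hj
    rw [intervalIntegral.integral_const_mul, (hF ρ hρ).1 _ (by omega), mul_zero]
  · intro j _
    have h2 : Continuous fun t => w ρ t ^ ((j : ℤ) - n) :=
      (TB_w_cont hρ).zpow₀ _ (fun t => Or.inl (TB_w_ne hρ t))
    exact (TB_int hρ _ h2 _ _).const_mul (a j)

end Run7.h819
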